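import Mathlib
import Pool.Agent.Y723.Z8.StmS
import Pool.Agent.Y474.Z8.RNK
import Pool.Agent.W701.FK.Find
import Pool.Agent.W307.SE.Locp
import Pool.Agent.W407.SE.Ratp

/-!
# Project Z8S, part RNKS: the bound of the order of the 2-Selmer group by the local count

Adapted from `Pool.Agent.Y474.Z8.RNK` (helper474) and `Pool.Agent.TH344.SG.Rank`.
-/

set_option autoImplicit false

namespace Pool.Agent.Y945.Z8

open Finset Pool.Agent.W262.RK Pool.Agent.W307.RT Pool.Agent.TH841.PT Pool.Agent.Y723.Z8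
open Pool.Agent.Y474.Z8
open Pool.Agent.W307.SE (SN LOCMP locmp_of Sel)

/-- The bound of the order of the 2-Selmer group by the local count. -/
theorem rnks : S_RNKS := by
  refine ⟨10, fun z hz => ⟨4 ^ (z + 16), 4 ^ 14, by positivity, by norm_num, ?_⟩⟩
  intro X y k a b hab h0 haX hbX hX hzy hXk
  have hdiff := diff8 a b
  have hA0 : -(M8 a b) ≠ 0 := by
    have h1 : a ≠ 0 := h0 0
    have h2 : b ≠ 0 := h0 1
    unfold M8
    exact neg_ne_zero.2 (pow_ne_zero _ (mul_ne_zero (mul_ne_zero two_ne_zero h1) h2))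
  have hB0 : -(N8 a b) ≠ 0 := by
    have h1 : a - b ≠ 0 := h0 2
    have h2 : a + b ≠ 0 := h0 3
    unfold N8
    have e : a ^ 2 - b ^ 2 = (a - b) * (a + b) := by ring
    rw [e]
    exact neg_ne_zero.2 (pow_ne_zero _ (mul_ne_zero h1 h2))
  have hAB : -(M8 a b) ≠ -(N8 a b) := by
    intro h
    rw [h, sub_self] at hdiff
    exact mul_ne_zero (h0 5) (mul_ne_zero (h0 6) (pow_ne_zero 2 (h0 4))) hdiff.symm
  set f := pr8 z a b with hf
  set s := S1 z y f with hs
  have hmem : s ∈ Tup (Fin 7 × Bool) z y := by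
    apply Pool.Agent.W571.RT.S1_mem
    rintro p hp hzp i i' hii' ⟨h1, h2⟩
    rw [hf, pr8_dvd h0 i hp hzp] at h1
    rw [hf, pr8_dvd h0 i' hp hzp] at h2
    by_cases hj : i.1 = i'.1
    · apply hii'
      refine Prod.ext hj ?_
      rw [← h1.2, ← h2.2, hj]
    · exact pair hab hp (by omega) hj h1.1 h2.1
  have hmd : ∏ i, s i ∣ PP z y := Tup_prod_dvd hmem
  have hPSof : ∀ p : ℕ, p.Prime → p ∣ ∏ i, s i → p ∈ PS z y := fun p hp h =>
    (prime_dvd_PP hp).1 (h.trans hmd)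
  have hodd2 : ∀ p : ℕ, p.Prime → p ∣ ∏ i, s i → 2 < p := by
    intro p hp h
    have h1 := (mem_PS.1 (hPSof p hp h)).1.1
    omega
  have hloc : LOCMP := locmp_of Pool.Agent.W407.SE.ratp
  have hd := Pool.Agent.W701.FK.seld' (∏ i, s i) (LTs cls8 e8 s ∅) (-(M8 a b)) (-(N8 a b))
    hA0 hB0 hAB
    (by
      rw [← Nat.not_even_iff_odd, even_iff_two_dvd]
      intro h
      exact absurd (hodd2 2 Nat.prime_two h) (by norm_num))
    ((PP_squarefree z y).squarefree_of_dvd hmd)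
    (fun p hp hpd => ⟨fun i hi => (LT_xc (cls8_ne i) (e8 i) _ _).1,
      fun a1 b1 c1 d1 a2 b2 c2 d2 e1 e2 i hi =>
        (LT_xc (cls8_ne i) (e8 i) _ _).2 a1 b1 c1 d1 a2 b2 c2 d2 (e1 i hi) (e2 i hi)⟩)
    (fun p hp hpd x x' hx' hcurve e1 e2 he1 he2 hsq1 hsq2 i hi => by
      have hpp : p.Prime := Fact.out
      have his := (Pool.Agent.W571.RT.S1_dvd_iff hpp).1 hi
      have hzp := (mem_PS.1 his.1).1.1
      have h2p : 2 < p := hodd2 p hpp hpd
      have h1 := his.2.1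
      rw [hf, pr8_dvd h0 i hpp hzp] at h1
      have h2 : ¬ (p : ℤ) ^ 2 ∣ F8 a b i.1 := by
        intro h3
        apply his.2.2
        rw [hf, pr8_pow h0 i hpp hzp two_ne_zero]
        exact ⟨h3, h1.2⟩
      obtain ⟨h3, h4⟩ := loc8 hab h0 hpp h2p i.1 h1.1 h2
      have hκ : ¬ (p : ℤ) ∣ kp i.1 := by
        unfold kp
        intro h5
        have h6 : (p : ℤ) ∣ 1 := by
          split_ifs at h5
          · exact (dvd_neg.1 h5)
          · exact h5
        have := Int.le_of_dvd (by norm_num) h6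
        omega
      have hfin := hloc (cls8 i) (kp i.1) p (-(M8 a b)) (-(N8 a b)) (cls8_ne i)
        (by omega) hκ hA0 hB0 hAB h3 x x' hx' hcurve e1 e2 he1 he2 hsq1 hsq2
      have hdec : decide (p ∈ (∅ : Finset ℕ)) = false := by simp
      rw [hdec]
      exact LT_of_LL (cls8_ne i) (h4.trans h1.2) hfin)
  have hc := bad8 h0 haX hbX hX (z := z) (y := y) (by omega) hzy hXk
  rw [← hf, ← hs] at hc
  rw [NBT_eq]
  have h1 : SN (-(M8 a b)) (-(N8 a b)) ≤
      4 ^ (((2 * -(M8 a b) * -(N8 a b) * (-(M8 a b) - -(N8 a b))).natAbs.primeFactors.filter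
        (fun q => ¬ q ∣ ∏ i, s i)).card + 2) * (NL (∏ i, s i) (LTs cls8 e8 s ∅) : ℝ) := by
    have h2 := hd.2
    unfold SN
    exact_mod_cast h2
  refine h1.trans (mul_le_mul_of_nonneg_right ?_ (Nat.cast_nonneg _))
  calc (4 : ℝ) ^ (((2 * -(M8 a b) * -(N8 a b) * (-(M8 a b) - -(N8 a b))).natAbs.primeFactors.filter
        (fun q => ¬ q ∣ ∏ i, s i)).card + 2)
      ≤ 4 ^ ((z + 16) + 14 * k + ∑ i, (S2 z y f i).primeFactors.card) :=
        pow_le_pow_right₀ (by norm_num) (by omega)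
    _ = 4 ^ (z + 16) * (4 ^ 14) ^ k * 4 ^ (∑ i, (S2 z y f i).primeFactors.card) := by
        rw [pow_add, pow_add (4 : ℝ) (z + 16) (14 * k), pow_mul]

end Pool.Agent.Y945.Z8
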